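import Pool.Agent.X62.MP.GP

/-!
# MP_e3f158_nt: all the types at once, in progressions modulo a prime with generic difference

For every large prime `q` and every length `L ≤ q`, all but at most `q exp (1.1 √(log q) log log q) / L` of the
differences `v` modulo `q` have the following property: EVERY progression `x, x + v, ..., x + (L - 1) v` modulo
`q` contains the residue of an even number less than `q` which has a representation of every type `(a, b)` with
`f₂(a, b) ≤ q`. At least `(q - 1) / (2 L)` of the differences do not have this property.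
-/

set_option autoImplicit false

namespace Pool.Agent.Results.MP_e3f158_nt.GenericProgressionsAllTypes

open Finset Filter
open Pool.Agent.H197R2.PG (PI)
open Pool.Agent.TH665.GP (PI_prime)
open Pool.Agent.Y886.UT (dens_exp PI_mono rep_of f2_ge log_of_f2 nlog_le abs_le_of_mul_self)

/-- the `x`-th prime, for `x ≥ 1` -/
noncomputable def pr (x : ℕ) : ℕ := Nat.nth Nat.Prime (x - 1)

/-- the `x`-th `i`-prime, for `x ≥ 1`: the `(i + 1)`-fold iterate of `pr` -/
noncomputable def iPrime (i x : ℕ) : ℕ := pr^[i + 1] x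

/-- `m` has a representation of type `(a, b)` -/
def HasRep (a b m : ℕ) : Prop :=
  ∃ x y : ℕ, 1 ≤ x ∧ 1 ≤ y ∧ iPrime a x + iPrime b y = m ∧ iPrime a x ≠ iPrime b y

/-- the function `f₂` of the question -/
noncomputable def f₂ (a b : ℕ) : ℝ :=
  if a = b then
    (if a = 0 then (2 : ℝ) ^ (((a : ℝ) + 1) * (b + 1) * (a + b + 2))
      else (2 : ℝ) ^ (((a : ℝ) + 1) ^ 2 * (2 * a + 3) / a - 2 * a))
  else (2 : ℝ) ^ (((a : ℝ) + 1) * (b + 1) * (a + b + 2) - (a + b - 2))

/-- Every progression `x, x + v, ..., x + (L - 1) v` contains a number congruent modulo `q` to an even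
number `2 n < q` which has a representation of every type `(a, b)` with `f₂(a, b) ≤ q`. -/
def Meets (L q v : ℕ) : Prop :=
  ∀ x : ℕ, ∃ r : ℕ, r < L ∧ ∃ n : ℕ, 2 * n < q ∧ (∀ a b : ℕ, f₂ a b ≤ q → HasRep a b (2 * n)) ∧
    2 * n ≡ x + r * v [MOD q]

/-- the differences `2 j` with `2 j L < q` are exceptional -/
lemma lower (q L : ℕ) (hL : 1 ≤ L) :
    (q - 1) / (2 * L) ≤ {v : ℕ | 0 < v ∧ v < q ∧ ¬ Meets L q v}.ncard := by
  have hfin : {v : ℕ | 0 < v ∧ v < q ∧ ¬ Meets L q v}.Finite :=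
    (Set.finite_lt_nat q).subset fun v hv => hv.2.1
  set K := (q - 1) / (2 * L) with hK
  have hsub : ((fun j : ℕ => 2 * j) '' (Set.Icc 1 K)) ⊆ {v : ℕ | 0 < v ∧ v < q ∧ ¬ Meets L q v} := by
    rintro v ⟨j, hj, rfl⟩
    obtain ⟨hj1, hj2⟩ := Set.mem_Icc.1 hj
    have h1 : K * (2 * L) ≤ q - 1 := Nat.div_mul_le_self _ _
    have h2 : j * (2 * L) ≤ K * (2 * L) := Nat.mul_le_mul_right _ hj2
    have h3 : j * (2 * L) = 2 * (j * L) := by ring
    have h4 : j ≤ j * L := Nat.le_mul_of_pos_right _ hL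
    have h5 : 2 * (j * L) ≤ q - 1 := by omega
    refine ⟨by simp only; omega, by simp only; omega, fun hM => ?_⟩
    obtain ⟨r, hr, n, hn, -, hmod⟩ := hM 1
    have h6 : r * (2 * j) = 2 * (j * r) := by ring
    have h7 : j * (r + 1) ≤ j * L := Nat.mul_le_mul_left _ hr
    have h8 : j * (r + 1) = j * r + j := by ring
    have h9 : 1 + r * (2 * j) < q := by omega
    have h10 : 2 * n = 1 + r * (2 * j) := by
      have h11 : 2 * n % q = (1 + r * (2 * j)) % q := hmod
      rwa [Nat.mod_eq_of_lt hn, Nat.mod_eq_of_lt h9] at h11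
    omega
  have h1 := Set.ncard_le_ncard hsub hfin
  rw [Set.ncard_image_of_injective _ (fun x y h => by have h' : 2 * x = 2 * y := h; omega)] at h1
  have h2 : (Set.Icc 1 K).ncard = K := by
    rw [← Finset.coe_Icc, Set.ncard_coe_finset, Nat.card_Icc, Nat.add_sub_cancel]
  rwa [h2] at h1

theorem upper : ∃ q₀ : ℕ, ∀ q : ℕ, q₀ ≤ q → q.Prime → ∀ L : ℕ, 1 ≤ L → L ≤ q →
    (({v : ℕ | 0 < v ∧ v < q ∧ ¬ Meets L q v}.ncard : ℕ) : ℝ) ≤
      q * Real.exp (11 / 10 * (√(Real.log q) * Real.log (Real.log q))) / L := by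
  classical
  obtain ⟨κ, hκ, hd⟩ := dens_exp
  have tN : Tendsto (fun N : ℕ => (N : ℝ)) atTop atTop := tendsto_natCast_atTop_atTop
  have tL : Tendsto (fun N : ℕ => Real.log (N : ℝ)) atTop atTop := Real.tendsto_log_atTop.comp tN
  have hev : ∀ᶠ t : ℝ in atTop, 200 ≤ t ∧ 100 * κ + 1 ≤ 2 * Real.log t ∧ 
      32 * (2 * Real.log t + κ) * (2 * t + 1) ≤ t ^ 2 := by
    have h1 := Real.isLittleO_log_id_atTop.bound (show (0 : ℝ) < 1 / 400 by norm_num)
    filter_upwards [eventually_ge_atTop 200, Real.tendsto_log_atTop.eventually_ge_atTop (100 * κ + 1), h1]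
      with t h1 h2 h3
    have hl : 0 ≤ Real.log t := Real.log_nonneg (by linarith)
    rw [Real.norm_of_nonneg hl] at h3
    simp only [id] at h3
    rw [Real.norm_of_nonneg (by linarith)] at h3
    refine ⟨h1, by linarith, ?_⟩
    have h4 : 2 * Real.log t + κ ≤ 3 * Real.log t := by linarith
    have h5 : 2 * t + 1 ≤ 3 * t := by linarith
    calc 32 * (2 * Real.log t + κ) * (2 * t + 1) ≤ 32 * (3 * Real.log t) * (3 * t) := by gcongr
      _ = 288 * (Real.log t * t) := by ring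
      _ ≤ 288 * ((1 / 400 * t) * t) := by gcongr
      _ ≤ t ^ 2 := by nlinarith
  have tS : Tendsto (fun N : ℕ => √(Real.log (N : ℝ))) atTop atTop := Real.tendsto_sqrt_atTop.comp tL
  obtain ⟨q₀, hq₀⟩ := eventually_atTop.1 ((tS.eventually hev).and (eventually_ge_atTop 16))
  refine ⟨q₀, fun x hx hprime len hlen hlenx => ?_⟩
  obtain ⟨⟨e1, e2, e4⟩, h5⟩ := hq₀ x hx
  set L := Real.log (x : ℝ) with hL
  set t := √L with ht
  have hx0 : (0 : ℝ) < x := by exact_mod_cast (by omega : 0 < x)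
  have hL0 : 0 < L := Real.log_pos (by exact_mod_cast (by omega : 1 < x))
  have ht2 : t * t = L := Real.mul_self_sqrt hL0.le
  have ht0 : 0 < t := by linarith
  have hLt : Real.log L = 2 * Real.log t := by
    rw [← ht2, Real.log_mul ht0.ne' ht0.ne']
    ring
  set l := 2 * Real.log t with hl
  rw [hLt]
  have hl1 : 1 ≤ l := by linarith
  have hexpl : Real.exp l = L := by
    rw [hl, two_mul, Real.exp_add, Real.exp_log ht0, ht2]
  have hxL : (x : ℝ) = Real.exp L := (Real.exp_log hx0).symm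
  have hnl := nlog_le (show 1 ≤ x by omega)
  have hlog2 : (0.6931 : ℝ) ≤ Real.log 2 := by
    have := Real.log_two_gt_d9
    linarith
  have hNL0 : (0 : ℝ) ≤ Nat.log 2 x := Nat.cast_nonneg _
  -- the two orders
  set A : ℕ := Nat.sqrt (Nat.log 2 x) with hA
  set B : ℕ := Nat.sqrt (Nat.log 2 x / 2) with hB
  have hA0 : (0 : ℝ) ≤ A := Nat.cast_nonneg _
  have hB0 : (0 : ℝ) ≤ B := Nat.cast_nonneg _
  have hAt : (A : ℝ) ≤ 1.202 * t := by
    have h6 : A * A ≤ Nat.log 2 x := Nat.sqrt_le _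
    have h7 : ((A : ℝ)) * A ≤ Nat.log 2 x := by exact_mod_cast h6
    have h8 : (A : ℝ) * A ≤ (1.202 * t) * (1.202 * t) := by nlinarith
    exact abs_le_of_mul_self (by positivity) (by linarith) h8
  have hBt : (B : ℝ) ≤ 0.85 * t := by
    have h6 : B * B ≤ Nat.log 2 x / 2 := Nat.sqrt_le _
    have h7 : 2 * (B * B) ≤ Nat.log 2 x := by omega
    have h7' : 2 * ((B : ℝ) * B) ≤ Nat.log 2 x := by exact_mod_cast h7
    have h8 : (B : ℝ) * B ≤ (0.85 * t) * (0.85 * t) := by nlinarith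
    exact abs_le_of_mul_self (by positivity) (by linarith) h8
  have hlk : 0 ≤ l + κ := by linarith
  have hAl : ((A : ℝ) + 1) * (l + κ) ≤ L / 32 := by
    have h6 : ((A : ℝ) + 1) * (l + κ) ≤ (2 * t + 1) * (l + κ) :=
      mul_le_mul_of_nonneg_right (by linarith) hlk
    have h7 : 32 * (l + κ) * (2 * t + 1) ≤ t ^ 2 := e4
    nlinarith
  have hBl : ((B : ℝ) + 1) * (l + κ) ≤ L / 32 := by
    have h6 : ((B : ℝ) + 1) * (l + κ) ≤ (2 * t + 1) * (l + κ) :=
      mul_le_mul_of_nonneg_right (by linarith) hlk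
    have h7 : 32 * (l + κ) * (2 * t + 1) ≤ t ^ 2 := e4
    nlinarith
  -- the sets
  set y : ℕ := (x - 1) / 2 with hy
  have hyx : (x : ℝ) / 4 ≤ y := by
    have h1 : x ≤ 4 * y := by omega
    have h2 : (x : ℝ) ≤ 4 * y := by exact_mod_cast h1
    linarith
  have hy1 : (1 : ℝ) ≤ y := by exact_mod_cast (by omega : 1 ≤ y)
  have hyx' : (y : ℝ) ≤ x := by exact_mod_cast (by omega : y ≤ x)
  have hlogy : Real.log y ≤ Real.exp l := by
    rw [hexpl]
    exact Real.log_le_log (by linarith) hyx'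
  have hL40000 : 40000 ≤ L := by nlinarith
  have hsize : ∀ s : ℝ, s ≤ L / 32 → 10 ≤ (y : ℝ) * Real.exp (-s) := by
    intro s hs
    have h1 : Real.exp (-(L / 32)) ≤ Real.exp (-s) := Real.exp_le_exp.2 (by linarith)
    have h2 : (x : ℝ) / 4 * Real.exp (-(L / 32)) ≤ y * Real.exp (-s) :=
      mul_le_mul hyx h1 (Real.exp_pos _).le (by linarith)
    refine le_trans ?_ h2
    rw [hxL, div_mul_eq_mul_div, ← Real.exp_add]
    have h3 : L + -(L / 32) + 1 ≤ Real.exp (L + -(L / 32)) := Real.add_one_le_exp _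
    linarith
  obtain ⟨S, hS1, hS2, hS3⟩ := hd A y l (by omega) hl1 hlogy
  obtain ⟨T, hT1, hT2, hT3⟩ := hd B y l (by omega) hl1 hlogy
  have hS4 := hsize _ hAl
  have hT4 := hsize _ hBl
  have hSc : (9 : ℝ) ≤ S.card := by linarith
  have hTc : (9 : ℝ) ≤ T.card := by linarith
  have hSc' : 4 ≤ S.card := by
    have : 9 ≤ S.card := by exact_mod_cast hSc
    omega
  have hTc' : 4 ≤ T.card := by
    have : 9 ≤ T.card := by exact_mod_cast hTc
    omega
  -- the exceptional differences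
  have hfin : {v : ℕ | 0 < v ∧ v < x ∧ ¬ Meets len x v}.Finite :=
    (Set.finite_lt_nat x).subset fun v hv => hv.2.1
  rw [Set.ncard_eq_toFinset_card _ hfin]
  set V := hfin.toFinset with hV
  have hVm : ∀ v ∈ V, 0 < v ∧ v < x ∧ ¬ Meets len x v := fun v hv => hfin.mem_toFinset.1 hv
  have key := Pool.Agent.X62.MP.odd_sums x hprime S T
    (fun p hp => ⟨PI_prime (hS2 p hp), by have := (mem_Icc.1 (hS1 hp)).2; omega⟩)
    (fun p hp => ⟨PI_prime (hT2 p hp), by have := (mem_Icc.1 (hT1 hp)).2; omega⟩) hSc' hTc' len hlen hlenx V (by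
      intro v hv
      obtain ⟨hv0, hvq, hbad⟩ := hVm v hv
      unfold Meets at hbad
      push Not at hbad
      obtain ⟨z, hz⟩ := hbad
      refine ⟨hv0, hvq, z, fun r hr p hp p' hp' n hne hsum => ?_⟩
      have h1 := (mem_Icc.1 (hS1 hp)).2
      have h2 := (mem_Icc.1 (hT1 hp')).2
      refine hz r hr n (by omega) (fun a b hf => ?_)
      obtain ⟨k1, k2, k3⟩ := f2_ge a b
      have haA : a ≤ A := by
        rw [hA, Nat.le_sqrt]
        have := log_of_f2 (le_refl x) hf k1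
        rwa [pow_two] at this
      have hbA : b ≤ A := by
        rw [hA, Nat.le_sqrt]
        have := log_of_f2 (le_refl x) hf k2
        rwa [pow_two] at this
      have hmin : min a b ≤ B := by
        rw [hB, Nat.le_sqrt]
        have h6 := log_of_f2 (le_refl x) hf k3
        rw [pow_two] at h6
        omega
      rcases le_total a b with hab | hab
      · rw [min_eq_left hab] at hmin
        exact rep_of (PI_mono hmin (hT2 p' hp')) (PI_mono hbA (hS2 p hp)) (by omega) (fun h => hne h.symm)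
      · rw [min_eq_right hab] at hmin
        exact rep_of (PI_mono haA (hS2 p hp)) (PI_mono hmin (hT2 p' hp')) hsum hne)
  -- the computation
  set E : ℝ := Real.exp (-((((A : ℝ) + 1) * (l + κ) + ((B : ℝ) + 1) * (l + κ)) / 2)) with hE
  have hE0 : 0 < E := Real.exp_pos _
  have hSTge : (x / 8 * E) ^ 2 ≤ (S.card : ℝ) * T.card := by
    have h1 : x / 8 * Real.exp (-(((A : ℝ) + 1) * (l + κ))) ≤ S.card := by
      have h2 : x / 4 * Real.exp (-(((A : ℝ) + 1) * (l + κ))) ≤ (S.card : ℝ) + 1 :=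
        (mul_le_mul_of_nonneg_right hyx (Real.exp_pos _).le).trans hS3
      linarith
    have h2 : x / 8 * Real.exp (-(((B : ℝ) + 1) * (l + κ))) ≤ T.card := by
      have h2 : x / 4 * Real.exp (-(((B : ℝ) + 1) * (l + κ))) ≤ (T.card : ℝ) + 1 :=
        (mul_le_mul_of_nonneg_right hyx (Real.exp_pos _).le).trans hT3
      linarith
    have h3 : E ^ 2 = Real.exp (-(((A : ℝ) + 1) * (l + κ))) * Real.exp (-(((B : ℝ) + 1) * (l + κ))) := by
      rw [hE, ← Real.exp_nat_mul, ← Real.exp_add]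
      congr 1
      push_cast
      ring
    calc (x / 8 * E) ^ 2 = (x / 8 * Real.exp (-(((A : ℝ) + 1) * (l + κ)))) *
          (x / 8 * Real.exp (-(((B : ℝ) + 1) * (l + κ)))) := by rw [mul_pow, h3]; ring
      _ ≤ _ := mul_le_mul h1 h2 (mul_nonneg (by linarith) (Real.exp_pos _).le) (Nat.cast_nonneg _)
  have hsq : x / 8 * E ≤ Real.sqrt (S.card * T.card) := Real.le_sqrt_of_sq_le hSTge
  have hlen0 : (0 : ℝ) < len := by exact_mod_cast (by omega : 0 < len)
  rw [le_div_iff₀ hlen0]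
  have h6 : (V.card : ℝ) * len * (x / 8 * E) ≤ 8 * (x : ℝ) ^ 2 :=
    (mul_le_mul_of_nonneg_left hsq (mul_nonneg (Nat.cast_nonneg _) (Nat.cast_nonneg _))).trans key
  have h7 : (V.card : ℝ) * len ≤ x * (64 * E⁻¹) := by
    have h8 : 0 < (x : ℝ) / 8 * E := mul_pos (by linarith) hE0
    refine le_of_mul_le_mul_right (h6.trans (le_of_eq ?_)) h8
    field_simp
    norm_num
  refine h7.trans (mul_le_mul_of_nonneg_left ?_ hx0.le)
  have h64 : (64 : ℝ) ≤ Real.exp 7 := by
    have h9 : (2 : ℝ) ≤ Real.exp 1 := by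
      have := Real.add_one_le_exp (1 : ℝ)
      linarith
    have h10 : Real.exp 7 = Real.exp 1 ^ 7 := by rw [← Real.exp_nat_mul]; norm_num
    rw [h10]
    calc (64 : ℝ) ≤ 2 ^ 7 := by norm_num
      _ ≤ _ := pow_le_pow_left₀ (by norm_num) h9 7
  have h11 : E⁻¹ = Real.exp ((((A : ℝ) + 1) * (l + κ) + ((B : ℝ) + 1) * (l + κ)) / 2) := by
    rw [hE, Real.exp_neg, inv_inv]
  rw [h11]
  calc 64 * Real.exp ((((A : ℝ) + 1) * (l + κ) + ((B : ℝ) + 1) * (l + κ)) / 2)
      ≤ Real.exp 7 * Real.exp ((((A : ℝ) + 1) * (l + κ) + ((B : ℝ) + 1) * (l + κ)) / 2) :=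
        mul_le_mul_of_nonneg_right h64 (Real.exp_pos _).le
    _ = Real.exp (7 + (((A : ℝ) + 1) * (l + κ) + ((B : ℝ) + 1) * (l + κ)) / 2) := (Real.exp_add _ _).symm
    _ ≤ _ := by
        apply Real.exp_le_exp.2
        have h12 : ((A : ℝ) + 1) * (l + κ) + ((B : ℝ) + 1) * (l + κ) ≤ (2.052 * t + 2) * (l + κ) := by
          rw [← add_mul]
          exact mul_le_mul_of_nonneg_right (by linarith) hlk
        have h13 : (2.052 * t + 2) * (l + κ) ≤ (2.052 * t + 2) * (l + l / 100) :=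
          mul_le_mul_of_nonneg_left (by linarith) (by linarith)
        have h14 : (2.052 * t + 2) * (l + l / 100) = 2.07252 * (t * l) + 2.02 * l := by ring
        have h15 : 200 * l ≤ t * l := mul_le_mul_of_nonneg_right e1 (by linarith)
        linarith

/-- **All types at once, for generic progressions modulo a prime.** -/
theorem result : ∃ q₀ : ℕ, ∀ q : ℕ, q₀ ≤ q → q.Prime → ∀ L : ℕ, 1 ≤ L → L ≤ q →
    (q - 1) / (2 * L) ≤ {v : ℕ | 0 < v ∧ v < q ∧ ¬ Meets L q v}.ncard ∧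
    (({v : ℕ | 0 < v ∧ v < q ∧ ¬ Meets L q v}.ncard : ℕ) : ℝ) ≤
      q * Real.exp (11 / 10 * (√(Real.log q) * Real.log (Real.log q))) / L := by
  obtain ⟨q₀, h⟩ := upper
  exact ⟨q₀, fun q hq hprime L hL hLq => ⟨lower q L hL, h q hq hprime L hL hLq⟩⟩

end Pool.Agent.Results.MP_e3f158_nt.GenericProgressionsAllTypes
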