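import Pool.Agent.X62.MP.AE

/-!
# MP_e3f158_nt: all the types at once, fractional parts

For almost all real `α` and all large `N` the fractional parts of `α m`, where `m ≤ N` runs through the even numbers
which have a representation of EVERY type `(a, b)` with `f₂(a, b) ≤ N`, leave no gap longer than
`exp (1.1 √(log N) log log N) / N`.
-/

set_option autoImplicit false

namespace Pool.Agent.Results.MP_e3f158_nt.MetricAllTypes

open Finset Filter MeasureTheory
open Pool.Agent.H197R2.PG (PI)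
open Pool.Agent.TH665.GP (PI_prime)
open Pool.Agent.Y886.UT (dens_exp PI_mono rep_of f2_ge abs_le_of_mul_self)

/-- the `x`-th prime, for `x ≥ 1` -/
noncomputable def pr (x : ℕ) : ℕ := Nat.nth Nat.Prime (x - 1)

/-- the `x`-th `i`-prime, for `x ≥ 1`: the `(i + 1)`-fold iterate of `pr` -/
noncomputable def iPrime (i x : ℕ) : ℕ := pr^[i + 1] x

/-- `m` has a representation of type `(a, b)` -/
def HasRep (a b m : ℕ) : Prop :=
  ∃ x y : ℕ, 1 ≤ x ∧ 1 ≤ y ∧ iPrime a x + iPrime b y = m ∧ iPrime a x ≠ iPrime b y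

/-- the function `f₂` of the question -/
noncomputable def f₂ (a b : ℕ) : ℝ :=
  if a = b then
    (if a = 0 then (2 : ℝ) ^ (((a : ℝ) + 1) * (b + 1) * (a + b + 2))
      else (2 : ℝ) ^ (((a : ℝ) + 1) ^ 2 * (2 * a + 3) / a - 2 * a))
  else (2 : ℝ) ^ (((a : ℝ) + 1) * (b + 1) * (a + b + 2) - (a + b - 2))

/-- For some even number `2 n ≤ N` which has a representation of every type `(a, b)` with `f₂(a, b) ≤ N`, the
distance of `α (2 n)` and `β` modulo one is at most `δ`. -/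
def Approx (N : ℕ) (δ α β : ℝ) : Prop :=
  ∃ n : ℕ, 2 * n ≤ N ∧ (∀ a b : ℕ, f₂ a b ≤ N → HasRep a b (2 * n)) ∧
    ∃ z : ℤ, |α * (2 * (n : ℝ)) - β - z| ≤ δ

lemma log_of_f2 {a b N m : ℕ} (h : f₂ a b ≤ N) (hm : (2 : ℝ) ^ m ≤ f₂ a b) : m ≤ Nat.log 2 N := by
  apply Nat.le_log_of_pow_le (by norm_num)
  have h1 : (2 : ℝ) ^ m ≤ N := hm.trans h
  exact_mod_cast h1

/-- the asymptotic inequalities, with `l = log₂ N` -/
lemma asymp (κ : ℝ) (hκ : 0 ≤ κ) : ∀ᶠ l : ℕ in atTop, 1 ≤ l ∧ 1 ≤ Real.log l ∧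
    0.88 * (√(l : ℝ) * Real.log l) + 1 ≤ (l - 1 : ℝ) * Real.log 2 ∧
    (√(l : ℝ) + 1) * (Real.log l + κ) + 3 ≤ (l - 1 : ℝ) * Real.log 2 ∧
    (0.8536 * √(l : ℝ) + 1) * (Real.log l + κ) + 2 * Real.log l + 6 ≤ 0.88 * (√(l : ℝ) * Real.log l) ∧
    10 ≤ Real.log l ∧ 10000 ≤ √(l : ℝ) := by
  have tN : Tendsto (fun N : ℕ => (N : ℝ)) atTop atTop := tendsto_natCast_atTop_atTop
  have tS : Tendsto (fun N : ℕ => √((N : ℝ))) atTop atTop := Real.tendsto_sqrt_atTop.comp tN
  have hev : ∀ᶠ t : ℝ in atTop, 10000 ≤ t ∧ 1000 * κ + 10 ≤ 2 * Real.log t ∧ Real.log t ≤ 1 / 400 * t := by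
    have h1 := Real.isLittleO_log_id_atTop.bound (show (0 : ℝ) < 1 / 400 by norm_num)
    filter_upwards [eventually_ge_atTop 10000, Real.tendsto_log_atTop.eventually_ge_atTop (1000 * κ + 10), h1]
      with t h1 h2 h3
    have hl : 0 ≤ Real.log t := Real.log_nonneg (by linarith)
    rw [Real.norm_of_nonneg hl] at h3
    simp only [id] at h3
    rw [Real.norm_of_nonneg (by linarith)] at h3
    exact ⟨h1, by linarith, h3⟩
  filter_upwards [tS.eventually hev, eventually_ge_atTop 1] with l h1 h2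
  obtain ⟨e1, e2, e3⟩ := h1
  set t := √(l : ℝ) with ht
  have ht0 : 0 < t := by linarith
  have htl : t * t = l := Real.mul_self_sqrt (Nat.cast_nonneg _)
  have hlog : Real.log (l : ℝ) = 2 * Real.log t := by
    rw [← htl, Real.log_mul ht0.ne' ht0.ne']; ring
  rw [hlog]
  set w := 2 * Real.log t with hw
  have hw10 : 10 ≤ w := by linarith
  have hwt : w ≤ 1 / 200 * t := by linarith
  have hκw : κ ≤ w / 1000 := by linarith
  have hlog2 : (0.6931 : ℝ) ≤ Real.log 2 := by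
    have := Real.log_two_gt_d9
    linarith
  rw [← htl]
  have htw : t * w ≤ t * (1 / 200 * t) := mul_le_mul_of_nonneg_left hwt ht0.le
  have htw2 : 10000 * w ≤ t * w := mul_le_mul_of_nonneg_right e1 (by linarith)
  have ht2 : 10000 * 10000 ≤ t * t := mul_le_mul e1 e1 (by norm_num) ht0.le
  have h3 : (t * t - 1) * 0.6931 ≤ (t * t - 1) * Real.log 2 := mul_le_mul_of_nonneg_left hlog2 (by linarith)
  refine ⟨h2, by linarith, by linarith, ?_, ?_, hw10, e1⟩
  · have h4 : (t + 1) * (w + κ) ≤ (t + 1) * (w + w / 1000) := mul_le_mul_of_nonneg_left (by linarith) (by linarith)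
    have h5 : (t + 1) * (w + w / 1000) = 1.001 * (t * w) + 1.001 * w := by ring
    linarith
  · have h4 : (0.8536 * t + 1) * (w + κ) ≤ (0.8536 * t + 1) * (w + w / 1000) :=
      mul_le_mul_of_nonneg_left (by linarith) (by linarith)
    have h5 : (0.8536 * t + 1) * (w + w / 1000) = 0.8544536 * (t * w) + 1.001 * w := by ring
    linarith

/-- **Main theorem.** -/
theorem result : ∀ᵐ α : ℝ, ∀ᶠ N : ℕ in atTop, ∀ β : ℝ,
    Approx N (Real.exp (11 / 10 * (√(Real.log N) * Real.log (Real.log N))) / N) α β := by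
  classical
  obtain ⟨κ, hκ, hd⟩ := dens_exp
  obtain ⟨l0, hl0⟩ := eventually_atTop.1 (asymp κ hκ)
  have hlog2 : (0.6931 : ℝ) ≤ Real.log 2 := by
    have := Real.log_two_gt_d9
    linarith
  have hlog2' : Real.log 2 ≤ 1 := by
    have := Real.log_two_lt_d9
    linarith
  -- the sets for `l = j + l0 + 2`
  have hsets : ∀ j : ℕ, ∃ S T : Finset ℕ, Disjoint S T ∧
      (∀ p ∈ S, p % 2 = 1 ∧ PI (Nat.sqrt (j + l0 + 2)) p ∧ p ≤ 2 ^ (j + l0 + 1)) ∧
      (∀ p ∈ T, p % 2 = 1 ∧ PI (Nat.sqrt ((j + l0 + 2) / 2)) p ∧ p ≤ 2 ^ (j + l0 + 1)) ∧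
      S.Nonempty ∧ T.Nonempty ∧
      (2 ^ (j + l0 + 1) / 8 * Real.exp (-((0.8536 * √((j + l0 + 2 : ℕ) : ℝ) + 1) *
        (Real.log ((j + l0 + 2 : ℕ) : ℝ) + κ)))) ^ 2 ≤ (S.card : ℝ) * T.card := by
    intro j
    obtain ⟨a1, a2, -, a4, -, -, -⟩ := hl0 (j + l0 + 2) (by omega)
    set l : ℕ := j + l0 + 2 with hl
    have hy : 2 ^ (j + l0 + 1) = 2 ^ (l - 1) := by rw [hl]; rfl
    set y : ℕ := 2 ^ (j + l0 + 1) with hydef
    have hlr : (1 : ℝ) ≤ l := by exact_mod_cast a1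
    have hlogy : Real.log (y : ℝ) = ((l : ℝ) - 1) * Real.log 2 := by
      have h1 : (y : ℝ) = (2 : ℝ) ^ (l - 1) := by rw [hy]; push_cast; rfl
      rw [h1, Real.log_pow, Nat.cast_sub a1]
      push_cast; ring
    have hly : Real.log (y : ℝ) ≤ Real.exp (Real.log l) := by
      rw [Real.exp_log (by linarith), hlogy]
      nlinarith
    have hy2 : 2 ≤ y := by
      rw [hydef, pow_succ]
      have : 1 ≤ 2 ^ (j + l0) := Nat.one_le_two_pow
      omega
    have hy0 : (0 : ℝ) < y := by exact_mod_cast (by omega : 0 < y)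
    set A : ℕ := Nat.sqrt l with hA
    set B : ℕ := Nat.sqrt (l / 2) with hB
    set t : ℝ := √(l : ℝ) with ht
    have ht2 : t * t = l := Real.mul_self_sqrt (Nat.cast_nonneg _)
    have ht0 : 0 ≤ t := Real.sqrt_nonneg _
    have hAt : (A : ℝ) ≤ t := by
      have h6 : A * A ≤ l := Nat.sqrt_le _
      have h7 : ((A : ℝ)) * A ≤ t * t := by rw [ht2]; exact_mod_cast h6
      exact abs_le_of_mul_self (Nat.cast_nonneg _) ht0 h7
    have hBt : (B : ℝ) ≤ 0.7072 * t := by
      have h6 : B * B ≤ l / 2 := Nat.sqrt_le _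
      have h7 : 2 * (B * B) ≤ l := by omega
      have h7' : 2 * ((B : ℝ) * B) ≤ l := by exact_mod_cast h7
      have h8 : (B : ℝ) * B ≤ (0.7072 * t) * (0.7072 * t) := by nlinarith
      exact abs_le_of_mul_self (Nat.cast_nonneg _) (by positivity) h8
    have hlk : 0 ≤ Real.log l + κ := by linarith
    obtain ⟨S, hS1, hS2, hS3⟩ := hd A y (Real.log l) hy2 a2 hly
    obtain ⟨T, hT1, hT2, hT3⟩ := hd B y (Real.log l) hy2 a2 hly
    have hbig : ∀ s : ℝ, s ≤ (t + 1) * (Real.log l + κ) → 8 ≤ (y : ℝ) * Real.exp (-s) := by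
      intro s hs
      have h1 : (y : ℝ) = Real.exp (((l : ℝ) - 1) * Real.log 2) := by rw [← hlogy, Real.exp_log hy0]
      rw [h1, ← Real.exp_add]
      have h2 : Real.exp 3 ≤ Real.exp (((l : ℝ) - 1) * Real.log 2 + -s) := Real.exp_le_exp.2 (by linarith)
      have h3 : (8 : ℝ) ≤ Real.exp 3 := by
        have h9 : (2 : ℝ) ≤ Real.exp 1 := by
          have := Real.add_one_le_exp (1 : ℝ)
          linarith
        have h10 : Real.exp 3 = Real.exp 1 ^ 3 := by rw [← Real.exp_nat_mul]; norm_num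
        rw [h10]
        calc (8 : ℝ) = 2 ^ 3 := by norm_num
          _ ≤ _ := pow_le_pow_left₀ (by norm_num) h9 3
      linarith
    have hS4 := hbig (((A : ℝ) + 1) * (Real.log l + κ)) (mul_le_mul_of_nonneg_right (by linarith) hlk)
    have hT4 := hbig (((B : ℝ) + 1) * (Real.log l + κ)) (mul_le_mul_of_nonneg_right (by linarith) hlk)
    have hSc : (7 : ℝ) ≤ S.card := by linarith
    have hTc : (7 : ℝ) ≤ T.card := by linarith
    have hSc' : 7 ≤ S.card := by exact_mod_cast hSc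
    have hTc' : 7 ≤ T.card := by exact_mod_cast hTc
    obtain ⟨S', T', h1, h2, h3, h4, h5, h6, h7, h8, h9⟩ := Pool.Agent.X62.MP.odd_halves S T
      (fun p hp => PI_prime (hS2 p hp)) (fun p hp => PI_prime (hT2 p hp)) (by omega) (by omega)
    refine ⟨S', T', h3, fun p hp => ⟨h4 p hp, hS2 p (h1 hp), (mem_Icc.1 (hS1 (h1 hp))).2⟩,
      fun p hp => ⟨h5 p hp, hT2 p (h2 hp), (mem_Icc.1 (hT1 (h2 hp))).2⟩, h6, h7, ?_⟩
    have h8' : (S.card : ℝ) ≤ 4 * S'.card := by exact_mod_cast h8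
    have h9' : (T.card : ℝ) ≤ 4 * T'.card := by exact_mod_cast h9
    have k1 : (y : ℝ) / 8 * Real.exp (-(((A : ℝ) + 1) * (Real.log l + κ))) ≤ S'.card := by linarith
    have k2 : (y : ℝ) / 8 * Real.exp (-(((B : ℝ) + 1) * (Real.log l + κ))) ≤ T'.card := by linarith
    have k3 : Real.exp (-((0.8536 * t + 1) * (Real.log l + κ))) ^ 2 ≤
        Real.exp (-(((A : ℝ) + 1) * (Real.log l + κ))) * Real.exp (-(((B : ℝ) + 1) * (Real.log l + κ))) := by
      rw [← Real.exp_nat_mul, ← Real.exp_add]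
      apply Real.exp_le_exp.2
      push_cast
      have : (((A : ℝ) + 1) + (B + 1)) * (Real.log l + κ) ≤ (2 * (0.8536 * t + 1)) * (Real.log l + κ) :=
        mul_le_mul_of_nonneg_right (by linarith) hlk
      linarith
    have hycast : ((2 : ℝ) ^ (j + l0 + 1)) = (y : ℝ) := by rw [hydef]; push_cast; rfl
    rw [hycast, mul_pow]
    calc ((y : ℝ) / 8) ^ 2 * Real.exp (-((0.8536 * t + 1) * (Real.log l + κ))) ^ 2
        ≤ ((y : ℝ) / 8) ^ 2 * (Real.exp (-(((A : ℝ) + 1) * (Real.log l + κ))) *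
            Real.exp (-(((B : ℝ) + 1) * (Real.log l + κ)))) := mul_le_mul_of_nonneg_left k3 (by positivity)
      _ = ((y : ℝ) / 8 * Real.exp (-(((A : ℝ) + 1) * (Real.log l + κ)))) *
            ((y : ℝ) / 8 * Real.exp (-(((B : ℝ) + 1) * (Real.log l + κ)))) := by ring
      _ ≤ _ := mul_le_mul k1 k2 (by positivity) (Nat.cast_nonneg _)
  choose S T hdis hS hT hSne hTne hST using hsets
  set δ : ℕ → ℝ := fun j => Real.exp (0.88 * (√((j + l0 + 2 : ℕ) : ℝ) * Real.log ((j + l0 + 2 : ℕ) : ℝ))) /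
    2 ^ (j + l0 + 1) with hδ
  have hδ0 : ∀ j, 0 < δ j := fun j => by simp only [hδ]; positivity
  have hpow2 : ∀ j : ℕ, (2 : ℝ) ^ (j + l0 + 1) = Real.exp ((((j + l0 + 2 : ℕ) : ℝ) - 1) * Real.log 2) := by
    intro j
    have h1 : (((j + l0 + 2 : ℕ) : ℝ) - 1) = ((j + l0 + 1 : ℕ) : ℝ) := by push_cast; ring
    rw [h1, Real.exp_nat_mul, Real.exp_log (by norm_num)]
  have hδ1 : ∀ j, δ j ≤ 1 := by
    intro j
    obtain ⟨-, -, a3, -, -, -, -⟩ := hl0 (j + l0 + 2) (by omega)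
    simp only [hδ]
    rw [div_le_one (by positivity), hpow2 j]
    exact Real.exp_le_exp.2 (by linarith)
  have hsum : Summable (fun j : ℕ => 1 / ((j + l0 + 2 : ℕ) : ℝ) ^ (2 : ℝ)) := by
    have h1 : Summable (fun n : ℕ => 1 / (n : ℝ) ^ (2 : ℝ)) := Real.summable_one_div_nat_rpow.2 (by norm_num)
    have h2 := (summable_nat_add_iff (l0 + 2)).2 h1
    simpa [add_assoc] using h2
  have hae := Pool.Agent.X62.MP.ae_of_dyadic S T δ hSne hTne hδ0 hδ1 _ (fun j => by positivity) hsum (by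
    intro j
    obtain ⟨a1, a2, -, -, a5, -, -⟩ := hl0 (j + l0 + 2) (by omega)
    have h1 : 2 ^ (j + l0 + 1) / 8 * Real.exp (-((0.8536 * √((j + l0 + 2 : ℕ) : ℝ) + 1) *
        (Real.log ((j + l0 + 2 : ℕ) : ℝ) + κ))) ≤ Real.sqrt ((S j).card * (T j).card) :=
      Real.le_sqrt_of_sq_le (hST j)
    set l : ℕ := j + l0 + 2 with hl
    have hlr : (1 : ℝ) ≤ l := by exact_mod_cast a1
    have hg0 : 0 < Real.sqrt ((S j).card * (T j).card) := lt_of_lt_of_le (by positivity) h1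
    rw [div_le_iff₀ (mul_pos (hδ0 j) hg0), one_div, inv_mul_eq_div, le_div_iff₀ (by positivity)]
    have h2 : (l : ℝ) ^ (2 : ℝ) = Real.exp (2 * Real.log l) := by
      rw [Real.rpow_def_of_pos (by linarith), mul_comm]
    rw [h2]
    refine le_trans ?_ (mul_le_mul_of_nonneg_left h1 (hδ0 j).le)
    simp only [hδ]
    rw [← hl]
    have h3 : Real.exp (0.88 * (√(l : ℝ) * Real.log l)) / 2 ^ (j + l0 + 1) *
        (2 ^ (j + l0 + 1) / 8 * Real.exp (-((0.8536 * √(l : ℝ) + 1) * (Real.log l + κ)))) =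
        Real.exp (0.88 * (√(l : ℝ) * Real.log l) + -((0.8536 * √(l : ℝ) + 1) * (Real.log l + κ))) / 8 := by
      rw [Real.exp_add]
      field_simp
    rw [h3, le_div_iff₀ (by norm_num)]
    have h4 : (128 : ℝ) ≤ Real.exp 6 := by
      have h9 := Real.exp_one_gt_d9
      have h10 : Real.exp 6 = Real.exp 1 ^ 6 := by rw [← Real.exp_nat_mul]; norm_num
      rw [h10]
      calc (128 : ℝ) ≤ 2.7 ^ 6 := by norm_num
        _ ≤ _ := pow_le_pow_left₀ (by norm_num) (by linarith) 6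
    calc 16 * Real.exp (2 * Real.log l) * 8 = 128 * Real.exp (2 * Real.log l) := by ring
      _ ≤ Real.exp 6 * Real.exp (2 * Real.log l) := mul_le_mul_of_nonneg_right h4 (Real.exp_pos _).le
      _ = Real.exp (6 + 2 * Real.log l) := (Real.exp_add _ _).symm
      _ ≤ _ := Real.exp_le_exp.2 (by linarith))
  filter_upwards [hae] with α hα
  obtain ⟨j1, hj1⟩ := eventually_atTop.1 hα
  filter_upwards [eventually_ge_atTop (2 ^ (j1 + l0 + 2))] with N hN2
  intro β
  have hN0 : N ≠ 0 := by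
    have : 0 < 2 ^ (j1 + l0 + 2) := by positivity
    omega
  set l : ℕ := Nat.log 2 N with hl
  have hl1 : 2 ^ l ≤ N := Nat.pow_log_le_self 2 hN0
  have hl2 : N < 2 ^ (l + 1) := Nat.lt_pow_succ_log_self (by norm_num) N
  have hl3 : j1 + l0 + 2 ≤ l := Nat.le_log_of_pow_le (by norm_num) hN2
  obtain ⟨j, hj⟩ : ∃ j, l = j + l0 + 2 := ⟨l - (l0 + 2), by omega⟩
  obtain ⟨p, hp, p', hp', z, hz⟩ := hj1 j (by omega) β
  obtain ⟨h1, h2, h3⟩ := hS j p hp
  obtain ⟨h4, h5, h6⟩ := hT j p' hp'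
  rw [← hj] at h2 h5
  have hne : p ≠ p' := fun h => Finset.disjoint_left.1 (hdis j) hp (h ▸ hp')
  have hsum2 : p + p' = 2 * ((p + p') / 2) := by omega
  refine ⟨(p + p') / 2, ?_, ?_, z, ?_⟩
  · rw [← hsum2]
    have : 2 ^ l = 2 ^ (j + l0 + 1) + 2 ^ (j + l0 + 1) := by rw [hj, pow_succ]; ring
    omega
  · rw [← hsum2]
    intro a b hf
    obtain ⟨k1, k2, k3⟩ := f2_ge a b
    have haA : a ≤ Nat.sqrt l := by
      rw [Nat.le_sqrt]
      have := log_of_f2 hf k1
      rwa [pow_two] at this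
    have hbA : b ≤ Nat.sqrt l := by
      rw [Nat.le_sqrt]
      have := log_of_f2 hf k2
      rwa [pow_two] at this
    have hmin : min a b ≤ Nat.sqrt (l / 2) := by
      rw [Nat.le_sqrt]
      have h6 := log_of_f2 hf k3
      rw [pow_two] at h6
      omega
    rcases le_total a b with hab | hab
    · rw [min_eq_left hab] at hmin
      exact rep_of (PI_mono hmin h5) (PI_mono hbA h2) (by omega) (fun h => hne h.symm)
    · rw [min_eq_right hab] at hmin
      exact rep_of (PI_mono haA h2) (PI_mono hmin h5) rfl hne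
  · have h7 : (2 : ℝ) * (((p + p') / 2 : ℕ) : ℝ) = (p : ℝ) + p' := by
      have : ((2 * ((p + p') / 2) : ℕ) : ℝ) = ((p + p' : ℕ) : ℝ) := by rw [← hsum2]
      push_cast at this
      exact this
    rw [h7]
    refine hz.trans ?_
    obtain ⟨a1, a2, -, -, -, a6, a7⟩ := hl0 l (by omega)
    have hNr : (0 : ℝ) < N := by exact_mod_cast Nat.pos_of_ne_zero hN0
    have hlr : (1 : ℝ) ≤ l := by exact_mod_cast a1
    have hlogN : (l : ℝ) * 0.6931 ≤ Real.log N := by
      have h8 : Real.log ((2 : ℝ) ^ l) ≤ Real.log N := Real.log_le_log (by positivity) (by exact_mod_cast hl1)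
      rw [Real.log_pow] at h8
      nlinarith
    have hlogN0 : 0 < Real.log N := by nlinarith
    -- the square root and the iterated logarithm
    have hsq : 0.8325 * √(l : ℝ) ≤ √(Real.log N) := by
      apply Real.le_sqrt_of_sq_le
      rw [mul_pow, Real.sq_sqrt (Nat.cast_nonneg _)]
      nlinarith
    have hll : Real.log l - 0.37 ≤ Real.log (Real.log N) := by
      have h8 : Real.log ((l : ℝ) * 0.6931) ≤ Real.log (Real.log N) := Real.log_le_log (by positivity) hlogN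
      rw [Real.log_mul (by positivity) (by norm_num)] at h8
      have h9 : -0.37 ≤ Real.log (0.6931 : ℝ) := by
        rw [← Real.log_exp (-0.37 : ℝ)]
        apply Real.log_le_log (Real.exp_pos _)
        rw [Real.exp_neg, inv_le_comm₀ (Real.exp_pos _) (by norm_num)]
        have h10 : (1 : ℝ) + 0.37 + 0.37 ^ 2 / 2 + 0.37 ^ 3 / 6 ≤ Real.exp 0.37 := by
          have := Real.sum_le_exp_of_nonneg (show (0 : ℝ) ≤ 0.37 by norm_num) 4
          simp only [Finset.sum_range_succ, Finset.sum_range_zero, Nat.factorial] at this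
          norm_num at this ⊢
          linarith
        refine le_trans ?_ h10
        norm_num
      linarith
    have hδl : δ j = Real.exp (0.88 * (√(l : ℝ) * Real.log l)) * 2 / 2 ^ l := by
      simp only [hδ]
      rw [← hj]
      have : (2 : ℝ) ^ l = 2 ^ (j + l0 + 1) * 2 := by rw [hj, pow_succ]
      rw [this]
      field_simp
    rw [hδl]
    have h10 : (N : ℝ) ≤ 2 * 2 ^ l := by
      have : (N : ℝ) < 2 ^ (l + 1) := by exact_mod_cast hl2
      rw [pow_succ] at this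
      linarith
    have h11 : (1 : ℝ) / 2 ^ l ≤ 2 / N := by
      rw [div_le_div_iff₀ (by positivity) hNr]
      linarith
    have h12 : (4 : ℝ) ≤ Real.exp 2 := by
      have h9 : (2 : ℝ) ≤ Real.exp 1 := by
        have := Real.add_one_le_exp (1 : ℝ)
        linarith
      have h10 : Real.exp 2 = Real.exp 1 ^ 2 := by rw [← Real.exp_nat_mul]; norm_num
      rw [h10]
      nlinarith
    have h13 : 2 + 0.88 * (√(l : ℝ) * Real.log l) ≤ 11 / 10 * (√(Real.log N) * Real.log (Real.log N)) := by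
      have h14 : (0.8325 * √(l : ℝ)) * (Real.log l - 0.37) ≤ √(Real.log N) * Real.log (Real.log N) :=
        mul_le_mul hsq hll (by linarith) (Real.sqrt_nonneg _)
      have h15 : 10 * √(l : ℝ) ≤ √(l : ℝ) * Real.log l := by
        rw [mul_comm]
        exact mul_le_mul_of_nonneg_left a6 (Real.sqrt_nonneg _)
      nlinarith
    calc Real.exp (0.88 * (√(l : ℝ) * Real.log l)) * 2 / 2 ^ l
        = Real.exp (0.88 * (√(l : ℝ) * Real.log l)) * 2 * (1 / 2 ^ l) := by ring
      _ ≤ Real.exp (0.88 * (√(l : ℝ) * Real.log l)) * 2 * (2 / N) := by gcongr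
      _ = 4 * Real.exp (0.88 * (√(l : ℝ) * Real.log l)) / N := by ring
      _ ≤ Real.exp 2 * Real.exp (0.88 * (√(l : ℝ) * Real.log l)) / N := by gcongr
      _ = Real.exp (2 + 0.88 * (√(l : ℝ) * Real.log l)) / N := by rw [Real.exp_add]
      _ ≤ _ := by
          apply div_le_div_of_nonneg_right _ hNr.le
          exact Real.exp_le_exp.2 h13

end Pool.Agent.Results.MP_e3f158_nt.MetricAllTypes
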