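import Mathlib
import Pool.Agent.X28.SX.Iter

/-!
# Almost all multiples of a small primorial have the expected number of representations of all types `(a, 0)`, `(0, b)`

For every `m`, almost all even numbers `N` between `X` and `2 X` which are multiples of a small primorial have
representations of all types `(a, 0)` and `(0, b)` with `a, b ≤ m` at once, and at least `1 - ε` times the expected number
of them for each type.
-/

set_option autoImplicit false

namespace Pool.Agent.Results.MP_e3f158_nt.MostMultiplesAllTypes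

open Finset Filter

/-- the `k`-th prime, `p 1 = 2` -/
noncomputable def p (k : ℕ) : ℕ := Nat.nth Nat.Prime (k - 1)

/-- the `x`-th `i`-prime, `p` iterated `i + 1` times at `x` -/
noncomputable def iPrime (i x : ℕ) : ℕ := p^[i + 1] x

/-- `N` has a representation of type `(a, b)` -/
def HasRep (a b N : ℕ) : Prop :=
  ∃ x y : ℕ, 1 ≤ x ∧ 1 ≤ y ∧ iPrime a x + iPrime b y = N ∧ iPrime a x ≠ iPrime b y

/-- the product of `1 - 1/q` over the primes `q ≤ y` -/
noncomputable def V (y : ℕ) : ℝ := ∏ q ∈ (Icc 1 y).filter Nat.Prime, (1 - 1 / (q : ℝ))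

/-- the positive integers `x` for which the `x`-th `a`-prime is at most `X` -/
noncomputable def U (a X : ℕ) : Finset ℕ := (Icc 1 X).filter (fun x => iPrime a x ≤ X)

/-- the `x` with the `x`-th `a`-prime at most `X` for which `N` is the sum of the `x`-th `a`-prime and another prime -/
noncomputable def Reps (a N X : ℕ) : Finset ℕ :=
  (U a X).filter (fun x => (N - iPrime a x).Prime ∧ N - iPrime a x ≠ iPrime a x)

/-- `N` has at least `1 - ε` times the expected number of representations of the types `(a, 0)` with the `a`-prime at most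
`X`, for all `a ≤ m`, and so a representation of each of the types `(a, 0)` and `(0, a)`, `a ≤ m` -/
def AllTypes (m X y : ℕ) (ε : ℝ) (N : ℕ) : Prop :=
  (∀ a ≤ m, (1 - ε) * ((U a X).card / (V y * Real.log X)) ≤ ((Reps a N X).card : ℝ)) ∧
    ∀ a ≤ m, HasRep a 0 N ∧ HasRep 0 a N

theorem has_of_mem {a N X x : ℕ} (hN : X ≤ N) (hx : x ∈ Reps a N X) : HasRep a 0 N ∧ HasRep 0 a N := by
  unfold Reps U at hx
  rw [mem_filter, mem_filter, mem_Icc] at hx
  obtain ⟨⟨⟨h1, h2⟩, h3⟩, h4, h5⟩ := hx
  obtain ⟨z, hz, hz2⟩ : ∃ z : ℕ, 1 ≤ z ∧ iPrime 0 z = N - iPrime a x := by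
    refine ⟨Nat.count Nat.Prime (N - iPrime a x) + 1, by omega, ?_⟩
    show p^[0 + 1] _ = _
    rw [zero_add, Function.iterate_one]
    unfold p
    rw [Nat.add_sub_cancel]
    exact Nat.nth_count h4
  refine ⟨⟨x, z, h1, hz, ?_, ?_⟩, ⟨z, x, hz, h1, ?_, ?_⟩⟩
  · rw [hz2]; omega
  · rw [hz2]; exact h5.symm
  · rw [hz2]; omega
  · rw [hz2]; exact h5

open Classical in
/-- There is an absolute constant `c > 0` such that for all `m`, `C` and `0 < ε ≤ 1` there is `K₀` such that for every
`K₁` and every large `X`: for all `a ≤ m` there are at least `c ^ (a + 1) X / log ^ (a + 1) X` positive integers `x` with the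
`x`-th `a`-prime at most `X`; and for every `y` between `K₀ log log X` and `K₁ log log X`, with `M` the product of the primes
`≤ y`, and every window `(g₀, g₀ + G]` with `X ≤ M g₀`, `M (g₀ + G) ≤ 2 X`, `G ≥ X / (M log ^ C X)`, for all but at most
`ε G` of the even numbers `N = M (g₀ + w)`, `1 ≤ w ≤ G`: for all `a ≤ m` at once the number `N` has representations of the
types `(a, 0)` and `(0, a)`, and at least `(1 - ε) #(U a X) / (V y log X)` of type `(a, 0)` with the `a`-prime at most `X`. -/
theorem result : ∃ c : ℝ, 0 < c ∧ ∀ (m C : ℕ) (ε : ℝ), 0 < ε → ε ≤ 1 → ∃ K₀ : ℕ, ∀ K₁ : ℕ, ∃ X₀ : ℕ, ∀ X : ℕ, X₀ ≤ X →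
    (∀ a ≤ m, c ^ (a + 1) * X / Real.log X ^ (a + 1) ≤ ((U a X).card : ℝ)) ∧
    ∀ y : ℕ, K₀ * Real.log (Real.log X) ≤ y → y ≤ K₁ * Real.log (Real.log X) →
    ∀ g₀ G : ℕ, X ≤ primorial y * g₀ → primorial y * (g₀ + G) ≤ 2 * X → (X : ℝ) ≤ primorial y * G * Real.log X ^ C →
    (((Icc 1 G).filter (fun w => ¬ AllTypes m X y ε (primorial y * (g₀ + w)))).card : ℝ) ≤ ε * G := by
  obtain ⟨c, hc, hlow⟩ := Pool.Agent.X28.SX.it_low
  refine ⟨c, hc, ?_⟩
  intro m C ε hε hε1
  obtain ⟨δ, hδ⟩ : ∃ δ : ℝ, δ = ε / (2 * (m + 1)) := ⟨_, rfl⟩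
  have hm1 : (1 : ℝ) ≤ m + 1 := by
    have : (0 : ℝ) ≤ m := Nat.cast_nonneg _
    linarith
  have hδ0 : 0 < δ := by rw [hδ]; positivity
  have hδe : δ ≤ ε / 2 := by
    rw [hδ]
    apply div_le_div_of_nonneg_left hε.le (by norm_num)
    linarith
  obtain ⟨K₀, hK₀⟩ := Pool.Agent.X28.SX.stepB true 1 (Or.inl rfl) (m + 2) 0 C δ hδ0 (by linarith)
  refine ⟨K₀, fun K₁ => ?_⟩
  obtain ⟨n1, hn1⟩ := hK₀ K₁
  choose Xa hXa using hlow
  obtain ⟨n2, hn2⟩ : ∃ n2 : ℕ, ∀ a ≤ m, Xa a ≤ n2 :=
    ⟨(range (m + 1)).sup Xa, fun a ha => Finset.le_sup (f := Xa) (mem_range.2 (by omega))⟩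
  obtain ⟨n3, hn3⟩ := Pool.Agent.H373R2.T7.ev_L' (max 2 ((1 / c) ^ (m + 1)))
  obtain ⟨n4, hn4⟩ := Pool.Agent.H373R2.T7.ev_log' (m + 3) (2 / ε)
  refine ⟨max n1 (max n2 (max n3 (max n4 1))), fun X hX => ?_⟩
  have b1 : n1 ≤ X := le_trans (le_max_left _ _) hX
  have b2 : n2 ≤ X := le_trans (le_trans (le_max_left _ _) (le_max_right _ _)) hX
  have b3 : n3 ≤ X := le_trans (le_trans (le_trans (le_max_left _ _) (le_max_right _ _)) (le_max_right _ _)) hX
  have b4 : max n4 1 ≤ X := le_trans (le_trans (le_trans (le_max_right _ _) (le_max_right _ _)) (le_max_right _ _)) hX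
  have hL2 : 2 ≤ Real.log X := (le_max_left _ _).trans (hn3 X b3)
  have hLc : (1 / c) ^ (m + 1) ≤ Real.log X := (le_max_right _ _).trans (hn3 X b3)
  have hL0 : 0 < Real.log X := by linarith
  have hX1 : (1 : ℝ) ≤ X := by exact_mod_cast (le_max_right _ _).trans b4
  have hX0 : (0 : ℝ) ≤ X := by linarith
  have hsq : √(X : ℝ) ≤ X := by
    rw [Real.sqrt_le_left (by linarith)]
    nlinarith
  have hbig := (hn4 X ((le_max_left _ _).trans b4)).trans hsq
  have hUm : (X : ℝ) ≤ (U m X).card * Real.log X ^ (m + 2) := by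
    have h2 : c ^ (m + 1) * X ≤ ((U m X).card : ℝ) * Real.log X ^ (m + 1) := by
      have := hXa m X ((hn2 m le_rfl).trans b2)
      rwa [div_le_iff₀ (by positivity)] at this
    have h3 : (X : ℝ) ≤ Real.log X * (c ^ (m + 1) * X) := by
      have h4 : (1 / c) ^ (m + 1) * c ^ (m + 1) = 1 := by
        rw [← mul_pow]
        have : 1 / c * c = 1 := by field_simp
        rw [this, one_pow]
      have h5 : 1 ≤ Real.log X * c ^ (m + 1) := by
        rw [← h4]
        exact mul_le_mul_of_nonneg_right hLc (by positivity)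
      nlinarith
    calc (X : ℝ) ≤ Real.log X * (c ^ (m + 1) * X) := h3
      _ ≤ Real.log X * (((U m X).card : ℝ) * Real.log X ^ (m + 1)) := mul_le_mul_of_nonneg_left h2 hL0.le
      _ = (U m X).card * Real.log X ^ (m + 2) := by ring
  have hUa : ∀ a ≤ m, (U m X).card ≤ (U a X).card := by
    intro a ha
    apply card_le_card
    intro x hx
    unfold U at hx ⊢
    rw [mem_filter] at hx ⊢
    refine ⟨hx.1, le_trans ?_ hx.2⟩
    exact Pool.Agent.X28.SX.it_mono (Nat.succ_le_succ ha) (mem_Icc.1 hx.1).1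
  refine ⟨fun a ha => hXa a X ((hn2 a ha).trans b2), fun y hy1 hy2 g₀ G hg0 hg1 hg2 => ?_⟩
  have hVz : Pool.Agent.H373R2.T7.Vz y = V y := rfl
  have hV0 : 0 < V y := by rw [← hVz]; exact Pool.Agent.H373R2.T7.Vz_pos y
  have hV1 : V y ≤ 1 := by rw [← hVz]; exact Pool.Agent.H373R2.T7.Vz_le_one y
  have hVL : 0 < V y * Real.log X := by positivity
  -- the exceptional sets
  obtain ⟨B, hB⟩ : ∃ B : ℕ → Finset ℕ, ∀ a, B a = (Icc 1 G).filter (fun w =>
      (((U a X).filter (fun x => (Pool.Agent.X28.SX.form true (primorial y * (g₀ + w)) (iPrime a x ^ 1)).Prime)).card : ℝ) <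
      (1 - δ) * ((U a X).card / (Pool.Agent.H373R2.T7.Vz y * (((1 : ℕ) : ℝ) * Real.log X)))) := ⟨_, fun _ => rfl⟩
  have hBc : ∀ a ≤ m, ((B a).card : ℝ) ≤ δ * G := by
    intro a ha
    rw [hB]
    have hcard : (X : ℝ) ≤ (U a X).card * Real.log X ^ (m + 2) := by
      refine hUm.trans ?_
      apply mul_le_mul_of_nonneg_right _ (by positivity)
      exact_mod_cast hUa a ha
    exact hn1 X b1 y hy1 hy2 (U a X) hcard (fun x => iPrime a x) (by
      intro u hu v hv huv
      have hu' := mem_filter.1 (mem_coe.1 hu)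
      have hv' := mem_filter.1 (mem_coe.1 hv)
      exact Pool.Agent.X28.SX.it_inj (a + 1) (mem_Icc.1 hu'.1).1 (mem_Icc.1 hv'.1).1 huv)
      (fun x hx => ⟨Pool.Agent.X28.SX.it_prime a x, (mem_filter.1 hx).2⟩) g₀ G
      ⟨by rw [pow_one]; exact hg0, by rw [pow_one]; exact hg1⟩ (by rw [pow_one]; exact hg2)
  have hsub : (Icc 1 G).filter (fun w => ¬ AllTypes m X y ε (primorial y * (g₀ + w))) ⊆ (range (m + 1)).biUnion B := by
    intro w hw
    rw [mem_filter] at hw
    by_contra hcon
    apply hw.2
    rw [mem_biUnion] at hcon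
    push Not at hcon
    obtain ⟨N, hN⟩ : ∃ N : ℕ, N = primorial y * (g₀ + w) := ⟨_, rfl⟩
    rw [← hN]
    have hNX : X ≤ N := by
      rw [hN]
      exact hg0.trans (Nat.mul_le_mul_left _ (Nat.le_add_right _ _))
    have key : ∀ a ≤ m, (1 - ε) * ((U a X).card / (V y * Real.log X)) ≤ ((Reps a N X).card : ℝ) ∧
        0 < (Reps a N X).card := by
      intro a ha
      have h1 := hcon a (mem_range.2 (by omega))
      rw [hB, mem_filter, not_and, not_lt] at h1
      have h2 := h1 hw.1
      rw [hVz, ← hN] at h2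
      have e1 : V y * (((1 : ℕ) : ℝ) * Real.log X) = V y * Real.log X := by push_cast; ring
      rw [e1] at h2
      obtain ⟨E, hE⟩ : ∃ E : ℝ, E = (U a X).card / (V y * Real.log X) := ⟨_, rfl⟩
      rw [← hE] at h2 ⊢
      obtain ⟨T, hT⟩ : ∃ T : Finset ℕ,
        T = (U a X).filter (fun x => (Pool.Agent.X28.SX.form true N (iPrime a x ^ 1)).Prime) := ⟨_, rfl⟩
      rw [← hT] at h2
      have h3 : T.card ≤ (Reps a N X).card + 1 := by
        have h4 : T ⊆ Reps a N X ∪ (U a X).filter (fun x => 2 * iPrime a x = N) := by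
          intro x hx
          rw [hT, mem_filter] at hx
          rw [mem_union]
          have h5 : (N - iPrime a x).Prime := by
            have := hx.2
            simpa [Pool.Agent.X28.SX.form] using this
          by_cases h6 : N - iPrime a x = iPrime a x
          · right
            rw [mem_filter]
            refine ⟨hx.1, ?_⟩
            have h7 : iPrime a x ≤ X := (mem_filter.1 hx.1).2
            omega
          · left
            unfold Reps
            rw [mem_filter]
            exact ⟨hx.1, h5, h6⟩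
        have h8 : ((U a X).filter (fun x => 2 * iPrime a x = N)).card ≤ 1 := by
          rw [card_le_one]
          intro u hu v hv
          rw [mem_filter] at hu hv
          have hu' := mem_filter.1 hu.1
          have hv' := mem_filter.1 hv.1
          have h9 : iPrime a u = iPrime a v := by omega
          exact Pool.Agent.X28.SX.it_inj (a + 1) (mem_Icc.1 hu'.1).1 (mem_Icc.1 hv'.1).1 h9
        have h10 := card_le_card h4
        have h11 := card_union_le (Reps a N X) ((U a X).filter (fun x => 2 * iPrime a x = N))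
        omega
      have h3r : (T.card : ℝ) ≤ (Reps a N X).card + 1 := by exact_mod_cast h3
      have hEbig : 1 ≤ ε / 2 * E := by
        have h12 : (X : ℝ) / Real.log X ^ (m + 3) ≤ E := by
          rw [hE, div_le_div_iff₀ (by positivity) hVL]
          have h13 : (X : ℝ) ≤ (U a X).card * Real.log X ^ (m + 2) := by
            refine hUm.trans ?_
            apply mul_le_mul_of_nonneg_right _ (by positivity)
            exact_mod_cast hUa a ha
          calc (X : ℝ) * (V y * Real.log X) ≤ X * (1 * Real.log X) := by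
                apply mul_le_mul_of_nonneg_left _ hX0
                exact mul_le_mul_of_nonneg_right hV1 hL0.le
            _ ≤ ((U a X).card * Real.log X ^ (m + 2)) * (1 * Real.log X) :=
                mul_le_mul_of_nonneg_right h13 (by linarith)
            _ = _ := by ring
        have h14 : 2 / ε ≤ (X : ℝ) / Real.log X ^ (m + 3) := by
          rw [le_div_iff₀ (by positivity)]
          exact hbig
        have h15 : 2 / ε ≤ E := h14.trans h12
        rw [div_le_iff₀ hε] at h15
        linarith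
      have hE0 : 0 < E := by
        by_contra h
        push Not at h
        nlinarith
      have h16 : (1 - ε / 2) * E ≤ (T.card : ℝ) := by
        refine le_trans ?_ h2
        apply mul_le_mul_of_nonneg_right _ hE0.le
        linarith
      have h17 : (1 - ε) * E ≤ ((Reps a N X).card : ℝ) := by nlinarith
      refine ⟨h17, ?_⟩
      by_contra h18
      have h19 : (Reps a N X).card = 0 := by omega
      rw [h19, Nat.cast_zero] at h3r
      have h20 : (1 / 2 : ℝ) * E ≤ 1 := by nlinarith
      have h21 : (1 : ℝ) ≤ 1 / 2 * E := by nlinarith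
      have h22 : E = 2 := by linarith
      have h23 : 1 ≤ ε / 2 * 2 := by
        rw [h22] at hEbig
        exact hEbig
      have h24 : ε = 1 := by linarith
      -- `E` is large
      have h25 : (X : ℝ) / Real.log X ^ (m + 3) ≤ E := by
        rw [hE, div_le_div_iff₀ (by positivity) hVL]
        have h13 : (X : ℝ) ≤ (U a X).card * Real.log X ^ (m + 2) := by
          refine hUm.trans ?_
          apply mul_le_mul_of_nonneg_right _ (by positivity)
          exact_mod_cast hUa a ha
        calc (X : ℝ) * (V y * Real.log X) ≤ X * (1 * Real.log X) := by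
              apply mul_le_mul_of_nonneg_left _ hX0
              exact mul_le_mul_of_nonneg_right hV1 hL0.le
          _ ≤ ((U a X).card * Real.log X ^ (m + 2)) * (1 * Real.log X) :=
              mul_le_mul_of_nonneg_right h13 (by linarith)
          _ = _ := by ring
      have h26 : (2 / ε) * Real.log X ^ (m + 3) ≤ √(X : ℝ) := hn4 X ((le_max_left _ _).trans b4)
      have h27 : (2 : ℝ) ≤ √(X : ℝ) := by
        rw [h24] at h26
        have h28 : (1 : ℝ) ≤ Real.log X ^ (m + 3) := one_le_pow₀ (by linarith)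
        linarith
      have h29 : √(X : ℝ) * √(X : ℝ) = X := Real.mul_self_sqrt hX0
      have h30 : (X : ℝ) / Real.log X ^ (m + 3) ≤ 2 := by linarith
      rw [div_le_iff₀ (by positivity)] at h30
      rw [h24] at h26
      have h31 : 2 * Real.log X ^ (m + 3) ≤ √(X : ℝ) := by linarith
      nlinarith
    refine ⟨fun a ha => (key a ha).1, fun a ha => ?_⟩
    obtain ⟨x, hx⟩ := card_pos.1 (key a ha).2
    exact has_of_mem hNX hx
  have h1 : (((Icc 1 G).filter (fun w => ¬ AllTypes m X y ε (primorial y * (g₀ + w)))).card : ℝ) ≤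
      ∑ a ∈ range (m + 1), ((B a).card : ℝ) := by
    have := (card_le_card hsub).trans card_biUnion_le
    exact_mod_cast this
  refine h1.trans ?_
  calc ∑ a ∈ range (m + 1), ((B a).card : ℝ) ≤ ∑ a ∈ range (m + 1), δ * G :=
        sum_le_sum fun a ha => hBc a (by have := mem_range.1 ha; omega)
    _ = (m + 1) * (δ * G) := by
        rw [sum_const, card_range, nsmul_eq_mul]
        push_cast
        ring
    _ = (ε / 2) * G := by
        rw [hδ]
        field_simp
    _ ≤ ε * G := mul_le_mul_of_nonneg_right (by linarith) (Nat.cast_nonneg _)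

end Pool.Agent.Results.MP_e3f158_nt.MostMultiplesAllTypes
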